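import Pool.Agent.R50.LO.Ruzsa

set_option autoImplicit false

/-!
# Graphs whose arcs are divided into large homogeneous classes
-/

namespace Pool.Agent.R50.LO

open Finset Pool.Agent.Y394.AT

open Classical in
/-- nonadjacent light continuations of class `i` -/
noncomputable def ls {V ι : Type} [Fintype V] (G : SimpleGraph V) (cl : V → V → ι) (t : ℕ)
    (a b : V) (i : ι) : Finset V :=
  (nb G b).filter (fun w => cl b w = i ∧ w ≠ a ∧ ¬ G.Adj a w ∧ cd G a w < t)

open Classical in
/-- light continuations of class `i` -/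
noncomputable def lf {V ι : Type} [Fintype V] (G : SimpleGraph V) (cl : V → V → ι) (s : ℝ)
    (a b : V) (i : ι) : Finset V :=
  (nb G b).filter (fun w => cl b w = i ∧ (cd G a w : ℝ) < s)

open Classical in
/-- adjacent light continuations -/
noncomputable def la {V : Type} [Fintype V] (G : SimpleGraph V) (s : ℝ)
    (a b : V) : Finset V :=
  (nb G b).filter (fun w => G.Adj a w ∧ (cd G a w : ℝ) < s)

open Classical in
/-- the members of class `i` at `x` -/
noncomputable def nc {V ι : Type} [Fintype V] (G : SimpleGraph V) (cl : V → V → ι)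
    (x : V) (i : ι) : Finset V :=
  (nb G x).filter (fun w => cl x w = i)

theorem mem_nc {V ι : Type} [Fintype V] (G : SimpleGraph V) (cl : V → V → ι) (x w : V) (i : ι) :
    w ∈ nc G cl x i ↔ G.Adj x w ∧ cl x w = i := by
  classical
  unfold nc
  rw [Finset.mem_filter, mem_nb]

theorem mem_lf {V ι : Type} [Fintype V] (G : SimpleGraph V) (cl : V → V → ι) (s : ℝ) (a b w : V)
    (i : ι) : w ∈ lf G cl s a b i ↔ G.Adj b w ∧ cl b w = i ∧ (cd G a w : ℝ) < s := by
  classical
  unfold lf
  rw [Finset.mem_filter, mem_nb]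

theorem mem_ls {V ι : Type} [Fintype V] (G : SimpleGraph V) (cl : V → V → ι) (t : ℕ) (a b w : V)
    (i : ι) : w ∈ ls G cl t a b i ↔
      G.Adj b w ∧ cl b w = i ∧ w ≠ a ∧ ¬ G.Adj a w ∧ cd G a w < t := by
  classical
  unfold ls
  rw [Finset.mem_filter, mem_nb]

theorem mem_la {V : Type} [Fintype V] (G : SimpleGraph V) (s : ℝ) (a b w : V) :
    w ∈ la G s a b ↔ G.Adj b w ∧ G.Adj a w ∧ (cd G a w : ℝ) < s := by
  classical
  unfold la
  rw [Finset.mem_filter, mem_nb]

/-- `G` is regular up to isolated vertices, and its arcs are divided into homogeneous classes each of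
which has at least `c d` members at each vertex that is not isolated. -/
structure Hom {V ι : Type} [Fintype V] (G : SimpleGraph V) (c d : ℝ) (cl : V → V → ι) :
    Prop where
  reg : Reg G d
  thick : ∀ x y a b, G.Adj x y → G.Adj a b → c * d ≤ ((nc G cl x (cl a b)).card : ℝ)
  inv : ∀ a b a' b', G.Adj a b → G.Adj a' b' → cl a b = cl a' b' → cl b a = cl b' a'
  cod : ∀ a b a' b', G.Adj a b → G.Adj a' b' → cl a b = cl a' b' → cd G a b = cd G a' b'
  lig : ∀ a b a' b', G.Adj a b → G.Adj a' b' → cl a b = cl a' b' → ∀ t i,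
    (ls G cl t a b i).card = (ls G cl t a' b' i).card
  all : ∀ a b a' b', G.Adj a b → G.Adj a' b' → cl a b = cl a' b' → ∀ s i,
    (lf G cl s a b i).card = (lf G cl s a' b' i).card
  adjl : ∀ a b a' b', G.Adj a b → G.Adj a' b' → cl a b = cl a' b' → ∀ s,
    (la G s a b).card = (la G s a' b').card

variable {V ι : Type} [Fintype V] {G : SimpleGraph V} {c d : ℝ} {cl : V → V → ι}

theorem lf_mono {s s' : ℝ} (h : s ≤ s') (a b : V) (i : ι) :
    (lf G cl s a b i).card ≤ (lf G cl s' a b i).card := by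
  apply Finset.card_le_card
  intro w hw
  rw [mem_lf] at hw ⊢
  exact ⟨hw.1, hw.2.1, hw.2.2.trans_le h⟩

open Classical in
/-- few adjacent light continuations -/
theorem la_few (h : Hom G c d cl) (hd : 0 < d) (hc : 0 < c) {δ : ℝ} (hδ : 0 ≤ δ) {a b : V}
    (hab : G.Adj a b) : ((la G (δ * d) a b).card : ℝ) ≤ δ / c * d := by
  have e1 : ∑ x ∈ nc G cl a (cl a b), ((la G (δ * d) a x).card : ℝ) =
      ((nc G cl a (cl a b)).card : ℝ) * ((la G (δ * d) a b).card : ℝ) := by
    rw [← nsmul_eq_mul, ← Finset.sum_const]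
    apply Finset.sum_congr rfl
    intro x hx
    rw [mem_nc] at hx
    rw [h.adjl a x a b hx.1 hab hx.2]
  have e2 : ∑ x ∈ nc G cl a (cl a b), ((la G (δ * d) a x).card : ℝ) ≤ d * (δ * d) := by
    calc ∑ x ∈ nc G cl a (cl a b), ((la G (δ * d) a x).card : ℝ)
        ≤ ∑ x ∈ nb G a, ((la G (δ * d) a x).card : ℝ) := by
          apply Finset.sum_le_sum_of_subset_of_nonneg
          · unfold nc
            exact Finset.filter_subset _ _
          · intro x _ _
            exact Nat.cast_nonneg _
      _ = ∑ x ∈ nb G a, ((((nb G a).filter (fun w => (cd G a w : ℝ) < δ * d)).filter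
            (fun w => G.Adj x w)).card : ℝ) := by
          apply Finset.sum_congr rfl
          intro x _
          congr 2
          ext w
          rw [mem_la, Finset.mem_filter, Finset.mem_filter, mem_nb]
          tauto
      _ = ∑ w ∈ (nb G a).filter (fun w => (cd G a w : ℝ) < δ * d),
            (((nb G a).filter (fun x => G.Adj x w)).card : ℝ) := dblR _ _ _
      _ ≤ ∑ w ∈ (nb G a).filter (fun w => (cd G a w : ℝ) < δ * d), δ * d := by
          apply Finset.sum_le_sum
          intro w hw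
          refine le_trans ?_ (Finset.mem_filter.1 hw).2.le
          have : ((nb G a).filter (fun x => G.Adj x w)).card ≤ cd G a w := by
            unfold cd
            apply Finset.card_le_card
            intro x hx
            rw [Finset.mem_filter, mem_nb] at hx
            exact Finset.mem_filter.2 ⟨Finset.mem_univ _, hx.1, hx.2.symm⟩
          exact_mod_cast this
      _ = (((nb G a).filter (fun w => (cd G a w : ℝ) < δ * d)).card : ℝ) * (δ * d) := by
          rw [Finset.sum_const, nsmul_eq_mul]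
      _ ≤ d * (δ * d) := by
          apply mul_le_mul_of_nonneg_right _ (by positivity)
          refine le_trans ?_ (h.reg.le hd.le a)
          exact_mod_cast Finset.card_le_card (Finset.filter_subset _ _)
  have e3 := h.thick a b a b hab hab
  have e4 : (c * d) * ((la G (δ * d) a b).card : ℝ) ≤ d * (δ * d) := by
    refine le_trans (mul_le_mul_of_nonneg_right e3 (Nat.cast_nonneg _)) ?_
    rw [← e1]
    exact e2
  have e5 : ((la G (δ * d) a b).card : ℝ) * (c * d) ≤ (δ / c * d) * (c * d) := by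
    have : (δ / c * d) * (c * d) = d * (δ * d) := by field_simp
    rw [this]
    linarith
  exact le_of_mul_le_mul_right e5 (mul_pos hc hd)

/-- light continuations -/
theorem lf_le_ls (h : Hom G c d cl) (hd : 0 < d) (hc : 0 < c) {δ : ℝ} (hδ : 0 ≤ δ) (hδ1 : δ ≤ 1)
    {a b : V} (hab : G.Adj a b) (i : ι) : ((lf G cl (δ * d) a b i).card : ℝ) ≤
      ((ls G cl ⌈δ * d⌉₊ a b i).card : ℝ) + δ / c * d := by
  classical
  refine le_trans ?_ (add_le_add_right (la_few h hd hc hδ hab) _)
  have : lf G cl (δ * d) a b i ⊆ ls G cl ⌈δ * d⌉₊ a b i ∪ la G (δ * d) a b := by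
    intro w hw
    rw [mem_lf] at hw
    rw [Finset.mem_union, mem_ls, mem_la]
    by_cases haw : G.Adj a w
    · exact Or.inr ⟨hw.1, haw, hw.2.2⟩
    · left
      refine ⟨hw.1, hw.2.1, ?_, haw, ?_⟩
      · rintro rfl
        have h1 := hw.2.2
        rw [cd_self, h.reg.eq hab] at h1
        nlinarith
      · rw [Nat.lt_ceil]
        exact hw.2.2
  exact_mod_cast (Finset.card_le_card this).trans (Finset.card_union_le _ _)

/-- reversal -/
theorem rev (h : Hom G c d cl) (hd : 0 < d) (hc : 0 < c) {s e : ℝ} (he : 0 ≤ e) {a b a' b' : V}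
    (hab : G.Adj a b) (hab' : G.Adj a' b')
    (hji : ∀ p q, G.Adj p q → cl p q = cl a' b' → ((lf G cl s p q (cl a b)).card : ℝ) ≤ e * d) :
    ∀ z x, G.Adj z x → cl z x = cl b a → ((lf G cl s z x (cl b' a')).card : ℝ) ≤ e / c * d := by
  classical
  intro z x hzx hcl
  -- members of the two classes at `x`
  have hP : ∀ y ∈ nc G cl x (cl a b), G.Adj y x ∧ cl y x = cl b a := by
    intro y hy
    rw [mem_nc] at hy
    exact ⟨hy.1.symm, h.inv x y a b hy.1 hab hy.2⟩
  have hQ : ∀ y ∈ nc G cl x (cl b' a'), G.Adj y x ∧ cl y x = cl a' b' := by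
    intro y hy
    rw [mem_nc] at hy
    exact ⟨hy.1.symm, h.inv x y b' a' hy.1 hab'.symm hy.2⟩
  have e1 : ∑ y ∈ nc G cl x (cl a b), ((lf G cl s y x (cl b' a')).card : ℝ) =
      ((nc G cl x (cl a b)).card : ℝ) * ((lf G cl s z x (cl b' a')).card : ℝ) := by
    rw [← nsmul_eq_mul, ← Finset.sum_const]
    apply Finset.sum_congr rfl
    intro y hy
    obtain ⟨h1, h2⟩ := hP y hy
    rw [h.all y x z x h1 hzx (h2.trans hcl.symm)]
  have e2 : ∑ y ∈ nc G cl x (cl a b), ((lf G cl s y x (cl b' a')).card : ℝ) =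
      ∑ w ∈ nc G cl x (cl b' a'), ((lf G cl s w x (cl a b)).card : ℝ) := by
    have f1 := dblR (nc G cl x (cl a b)) (nc G cl x (cl b' a')) (fun y w => (cd G y w : ℝ) < s)
    have f2 : ∀ y, lf G cl s y x (cl b' a') =
        (nc G cl x (cl b' a')).filter (fun w => (cd G y w : ℝ) < s) := by
      intro y
      ext w
      rw [mem_lf, Finset.mem_filter, mem_nc]
      tauto
    have f3 : ∀ w, lf G cl s w x (cl a b) =
        (nc G cl x (cl a b)).filter (fun y => (cd G y w : ℝ) < s) := by
      intro w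
      ext y
      rw [mem_lf, Finset.mem_filter, mem_nc, cd_comm]
      tauto
    simp only [f2, f3]
    exact f1
  have e3 : ∑ w ∈ nc G cl x (cl b' a'), ((lf G cl s w x (cl a b)).card : ℝ) ≤ d * (e * d) := by
    calc ∑ w ∈ nc G cl x (cl b' a'), ((lf G cl s w x (cl a b)).card : ℝ)
        ≤ ∑ w ∈ nc G cl x (cl b' a'), e * d := by
          apply Finset.sum_le_sum
          intro w hw
          obtain ⟨h1, h2⟩ := hQ w hw
          exact hji w x h1 h2
      _ = ((nc G cl x (cl b' a')).card : ℝ) * (e * d) := by rw [Finset.sum_const, nsmul_eq_mul]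
      _ ≤ d * (e * d) := by
          apply mul_le_mul_of_nonneg_right _ (by positivity)
          refine le_trans ?_ (h.reg.le hd.le x)
          unfold nc
          exact_mod_cast Finset.card_le_card (Finset.filter_subset _ _)
  have e4 := h.thick x z a b hzx.symm hab
  have e5 : (c * d) * ((lf G cl s z x (cl b' a')).card : ℝ) ≤ d * (e * d) := by
    refine le_trans (mul_le_mul_of_nonneg_right e4 (Nat.cast_nonneg _)) ?_
    rw [← e1, e2]
    exact e3
  have e6 : ((lf G cl s z x (cl b' a')).card : ℝ) * (c * d) ≤ (e / c * d) * (c * d) := by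
    have : (e / c * d) * (c * d) = d * (e * d) := by field_simp
    rw [this]
    linarith
  exact le_of_mul_le_mul_right e6 (mul_pos hc hd)

/-- the triangle inequality for classes: `α → γ` and `γ* → β` give `α → β` -/
theorem tri (h : Hom G c d cl) (hd : 0 < d) (hc : 0 < c) {ε δ δ' : ℝ}
    (hεc : ε ≤ c / 4) (hδ : 0 < δ) (hδ' : 0 ≤ δ') {a b p q : V} {β : ι}
    (hab : G.Adj a b) (hpq : G.Adj p q)
    (h1 : ∀ z x, G.Adj z x → cl z x = cl a b →
      ((lf G cl (δ * d) z x (cl p q)).card : ℝ) ≤ ε * d)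
    (h2 : ∀ u x, G.Adj u x → cl u x = cl q p →
      ((lf G cl (δ * d) u x β).card : ℝ) ≤ ε * d) :
    ∀ z x, G.Adj z x → cl z x = cl a b →
      ((lf G cl (δ' * d) z x β).card : ℝ) ≤ (4 * ε / c + 2 * δ' / (c ^ 2 * δ ^ 2)) * d := by
  classical
  intro z x0 hzx0 hcl0
  have hX : ∀ x ∈ nc G cl z (cl a b), G.Adj z x ∧ cl z x = cl a b := by
    intro x hx
    rwa [mem_nc] at hx
  have key := ruzsa h.reg hd hc hεc hδ hδ' z (nc G cl z (cl a b)) (fun x hx => (hX x hx).1)
    (fun x => nc G cl x (cl p q)) (fun x => nc G cl x β)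
    (fun x _ u hu => ((mem_nc G cl x u _).1 hu).1) (fun x _ w hw => ((mem_nc G cl x w _).1 hw).1)
    (fun x hx => h.thick x z p q (hX x hx).1.symm hpq)
    (by
      intro x hx
      have := h1 z x (hX x hx).1 (hX x hx).2
      refine le_trans ?_ this
      apply le_of_eq
      congr 2
      ext w
      rw [mem_lf, Finset.mem_filter, mem_nc]
      tauto)
    (by
      intro x hx u hu
      rw [mem_nc] at hu
      have := h2 u x hu.1.symm (h.inv x u p q hu.1 hpq hu.2)
      refine le_trans ?_ this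
      apply le_of_eq
      congr 2
      ext w
      rw [mem_lf, Finset.mem_filter, mem_nc]
      tauto)
  have e1 : ∑ x ∈ nc G cl z (cl a b),
      ((((nc G cl x β)).filter (fun w => (cd G z w : ℝ) < δ' * d)).card : ℝ) =
      ((nc G cl z (cl a b)).card : ℝ) * ((lf G cl (δ' * d) z x0 β).card : ℝ) := by
    rw [← nsmul_eq_mul, ← Finset.sum_const]
    apply Finset.sum_congr rfl
    intro x hx
    rw [← h.all z x z x0 (hX x hx).1 hzx0 ((hX x hx).2.trans hcl0.symm)]
    congr 2
    ext w
    rw [mem_lf, Finset.mem_filter, mem_nc]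
    tauto
  rw [e1] at key
  have e2 := h.thick z x0 a b hzx0 hab
  set n : ℝ := ((nc G cl z (cl a b)).card : ℝ) with hn
  have hn0 : 0 < n := lt_of_lt_of_le (mul_pos hc hd) e2
  have e3 : n * (2 * δ' / (c ^ 2 * δ ^ 2) * d) ≥ 2 * δ' / (c * δ ^ 2) * d ^ 2 := by
    have e4 : (c * d) * (2 * δ' / (c ^ 2 * δ ^ 2) * d) = 2 * δ' / (c * δ ^ 2) * d ^ 2 := by
      field_simp
    rw [← e4]
    exact mul_le_mul_of_nonneg_right e2 (by positivity)
  have e5 : n * ((lf G cl (δ' * d) z x0 β).card : ℝ) ≤
      n * ((4 * ε / c + 2 * δ' / (c ^ 2 * δ ^ 2)) * d) := by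
    have : n * ((4 * ε / c + 2 * δ' / (c ^ 2 * δ ^ 2)) * d) =
        n * (4 * ε / c * d) + n * (2 * δ' / (c ^ 2 * δ ^ 2) * d) := by ring
    rw [this]
    linarith
  exact le_of_mul_le_mul_left e5 hn0

end Pool.Agent.R50.LO
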