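import Pool.Agent.R50.LO.Main

set_option autoImplicit false

/-!
# Automorphism groups and association schemes
-/

namespace Pool.Agent.R50.LO

open Finset Pool.Agent.Y394.AT

/-- the orbit of an arc under the automorphism group -/
def orb {V : Type} (G : SimpleGraph V) (a b : V) : Set (V × V) :=
  {p | ∃ φ : G ≃g G, φ a = p.1 ∧ φ b = p.2}

theorem orb_map {V : Type} (G : SimpleGraph V) (φ : G ≃g G) (a b : V) :
    orb G (φ a) (φ b) = orb G a b := by
  ext p
  constructor
  · rintro ⟨ψ, h1, h2⟩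
    exact ⟨φ.trans ψ, h1, h2⟩
  · rintro ⟨ψ, h1, h2⟩
    refine ⟨φ.symm.trans ψ, ?_, ?_⟩
    · show ψ (φ.symm (φ a)) = p.1
      rw [φ.symm_apply_apply]
      exact h1
    · show ψ (φ.symm (φ b)) = p.2
      rw [φ.symm_apply_apply]
      exact h2

theorem orb_eq {V : Type} {G : SimpleGraph V} {a b a' b' : V} (h : orb G a b = orb G a' b') :
    ∃ φ : G ≃g G, φ a = a' ∧ φ b = b' := by
  have : (a', b') ∈ orb G a b := by
    rw [h]
    exact ⟨SimpleGraph.Iso.refl, rfl, rfl⟩
  exact this

theorem cd_map {V : Type} [Fintype V] {G : SimpleGraph V} (φ : G ≃g G) (u v : V) :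
    cd G (φ u) (φ v) = cd G u v := by
  classical
  unfold cd
  symm
  apply Finset.card_bij (fun w _ => φ w)
  · intro w hw
    rw [Finset.mem_filter] at hw ⊢
    exact ⟨Finset.mem_univ _, φ.map_adj_iff.2 hw.2.1, φ.map_adj_iff.2 hw.2.2⟩
  · intro w _ w' _ h
    exact φ.injective h
  · intro w hw
    rw [Finset.mem_filter] at hw
    obtain ⟨w', rfl⟩ := φ.surjective w
    refine ⟨w', ?_, rfl⟩
    rw [Finset.mem_filter]
    exact ⟨Finset.mem_univ _, φ.map_adj_iff.1 hw.2.1, φ.map_adj_iff.1 hw.2.2⟩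

/-- transport of a set of vertices by an automorphism -/
theorem card_map {V : Type} {G : SimpleGraph V} (φ : G ≃g G) (S S' : Finset V)
    (h : ∀ w, w ∈ S ↔ φ w ∈ S') : S.card = S'.card := by
  apply Finset.card_bij (fun w _ => φ w)
  · intro w hw
    exact (h w).1 hw
  · intro w _ w' _ h
    exact φ.injective h
  · intro w hw
    obtain ⟨w', rfl⟩ := φ.surjective w
    exact ⟨w', (h w').2 hw, rfl⟩

theorem nc_map {V : Type} [Fintype V] {G : SimpleGraph V} (φ : G ≃g G) (x : V)
    (i : Set (V × V)) : (nc G (orb G) x i).card = (nc G (orb G) (φ x) i).card := by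
  apply card_map φ
  intro w
  rw [mem_nc, mem_nc, orb_map, φ.map_adj_iff]

/-- The classes given by the automorphism group. -/
theorem hom_of_group {V : Type} [Fintype V] (G : SimpleGraph V) (c : ℝ) (D : ℕ)
    (hreg : Reg G D)
    (htr : ∀ x y a b, G.Adj x y → G.Adj a b → ∃ φ : G ≃g G, φ a = x)
    (hth : ∀ a b, G.Adj a b → c * D ≤ ((nc G (orb G) a (orb G a b)).card : ℝ)) :
    Hom G c D (orb G) where
  reg := hreg
  thick := by
    intro x y a b hxy hab
    obtain ⟨φ, rfl⟩ := htr x y a b hxy hab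
    rw [← nc_map]
    exact hth a b hab
  inv := by
    intro a b a' b' _ _ h
    obtain ⟨φ, rfl, rfl⟩ := orb_eq h
    rw [orb_map]
  cod := by
    intro a b a' b' _ _ h
    obtain ⟨φ, rfl, rfl⟩ := orb_eq h
    rw [cd_map]
  lig := by
    intro a b a' b' _ _ h t i
    obtain ⟨φ, rfl, rfl⟩ := orb_eq h
    apply card_map φ
    intro w
    rw [mem_ls, mem_ls, orb_map, φ.map_adj_iff, φ.map_adj_iff, cd_map, φ.injective.ne_iff]
  all := by
    intro a b a' b' _ _ h s i
    obtain ⟨φ, rfl, rfl⟩ := orb_eq h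
    apply card_map φ
    intro w
    rw [mem_lf, mem_lf, orb_map, φ.map_adj_iff, cd_map]
  adjl := by
    intro a b a' b' _ _ h s
    obtain ⟨φ, rfl, rfl⟩ := orb_eq h
    apply card_map φ
    intro w
    rw [mem_la, mem_la, φ.map_adj_iff, φ.map_adj_iff, cd_map]

/-! ### Association schemes -/

/-- A homogeneous coherent configuration on `V`: the classes of pairs `R x y`. -/
structure IsScheme {V ι : Type} (R : V → V → ι) : Prop where
  diag : ∀ x y z, R x y = R z z ↔ x = y
  inv : ∀ x y x' y', R x y = R x' y' → R y x = R y' x'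
  num : ∀ i j x y x' y', R x y = R x' y' →
    {z | R x z = i ∧ R z y = j}.ncard = {z | R x' z = i ∧ R z y' = j}.ncard

theorem count_P {V ι : Type} [Fintype V] {R : V → V → ι} (h : IsScheme R) (P : ι → ι → Prop)
    {x y x' y' : V} (hxy : R x y = R x' y') (S S' : Finset V)
    (hS : ∀ z, z ∈ S ↔ P (R x z) (R z y)) (hS' : ∀ z, z ∈ S' ↔ P (R x' z) (R z y')) :
    S.card = S'.card := by
  classical
  obtain ⟨I, hI⟩ : ∃ I : Finset ι, ∀ u v, R u v ∈ I :=
    ⟨(univ : Finset (V × V)).image (fun p => R p.1 p.2), fun u v =>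
      Finset.mem_image.2 ⟨(u, v), Finset.mem_univ _, rfl⟩⟩
  rw [Finset.card_eq_sum_card_fiberwise (f := fun z => (R x z, R z y)) (t := I ×ˢ I) (s := S)
      (fun z _ => Finset.mem_coe.2 (Finset.mem_product.2 ⟨hI _ _, hI _ _⟩)),
    Finset.card_eq_sum_card_fiberwise (f := fun z => (R x' z, R z y')) (t := I ×ˢ I) (s := S')
      (fun z _ => Finset.mem_coe.2 (Finset.mem_product.2 ⟨hI _ _, hI _ _⟩))]
  apply Finset.sum_congr rfl
  rintro ⟨i, j⟩ _
  by_cases hP : P i j
  · have e1 : ((S.filter (fun z => (R x z, R z y) = (i, j)) : Finset V) : Set V) =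
        {z | R x z = i ∧ R z y = j} := by
      ext z
      rw [Finset.mem_coe, Finset.mem_filter, hS, Prod.mk.injEq, Set.mem_ofPred_eq]
      constructor
      · exact fun h => h.2
      · rintro ⟨rfl, rfl⟩
        exact ⟨hP, rfl, rfl⟩
    have e2 : ((S'.filter (fun z => (R x' z, R z y') = (i, j)) : Finset V) : Set V) =
        {z | R x' z = i ∧ R z y' = j} := by
      ext z
      rw [Finset.mem_coe, Finset.mem_filter, hS', Prod.mk.injEq, Set.mem_ofPred_eq]
      constructor
      · exact fun h => h.2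
      · rintro ⟨rfl, rfl⟩
        exact ⟨hP, rfl, rfl⟩
    rw [← Set.ncard_coe_finset, ← Set.ncard_coe_finset, e1, e2]
    exact h.num i j x y x' y' hxy
  · rw [Finset.filter_eq_empty_iff.2, Finset.filter_eq_empty_iff.2]
    · intro z hz h1
      rw [Prod.mk.injEq] at h1
      apply hP
      rw [← h1.1, ← h1.2]
      exact (hS' z).1 hz
    · intro z hz h1
      rw [Prod.mk.injEq] at h1
      apply hP
      rw [← h1.1, ← h1.2]
      exact (hS z).1 hz

/-- counting with invariant relations -/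
theorem count_inv {V ι : Type} [Fintype V] {R : V → V → ι} (h : IsScheme R)
    (Q1 Q2 : V → V → Prop) (h1 : ∀ x y x' y', R x y = R x' y' → Q1 x y → Q1 x' y')
    (h2 : ∀ x y x' y', R x y = R x' y' → Q2 x y → Q2 x' y')
    {a b a' b' : V} (hab : R a b = R a' b') (S S' : Finset V)
    (hS : ∀ w, w ∈ S ↔ Q1 a w ∧ Q2 b w) (hS' : ∀ w, w ∈ S' ↔ Q1 a' w ∧ Q2 b' w) :
    S.card = S'.card := by
  have key : ∀ (u v w : V), (Q1 u w ∧ Q2 v w) ↔
      ((∃ p q, R p q = R u w ∧ Q1 p q) ∧ ∃ p q, R p q = R w v ∧ Q2 q p) := by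
    intro u v w
    constructor
    · rintro ⟨g1, g2⟩
      exact ⟨⟨u, w, rfl, g1⟩, ⟨w, v, rfl, g2⟩⟩
    · rintro ⟨⟨p, q, g1, g2⟩, ⟨p', q', g3, g4⟩⟩
      exact ⟨h1 _ _ _ _ g1 g2, h2 _ _ _ _ (h.inv _ _ _ _ g3) g4⟩
  apply count_P h (fun i j => (∃ p q, R p q = i ∧ Q1 p q) ∧ ∃ p q, R p q = j ∧ Q2 q p) hab S S'
  · intro z
    rw [hS, key]
  · intro z
    rw [hS', key]

/-- The classes given by an association scheme. -/
theorem hom_of_scheme {V ι : Type} [Fintype V] (G : SimpleGraph V) (c : ℝ) {R : V → V → ι}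
    (h : IsScheme R) (hG : ∀ x y x' y', R x y = R x' y' → G.Adj x y → G.Adj x' y')
    (hth : ∀ x y, G.Adj x y → c * ({z | G.Adj x z}.ncard : ℝ) ≤ {z | R x z = R x y}.ncard) :
    ∃ D : ℕ, Hom G c D R := by
  classical
  have hdd : ∀ x y, R x x = R y y := fun x y => (h.diag x x y).2 rfl
  have hcd : ∀ x y x' y', R x y = R x' y' → cd G x y = cd G x' y' := by
    intro x y x' y' hxy
    unfold cd
    refine count_inv h G.Adj G.Adj hG hG hxy _ _ ?_ ?_
    · intro w
      rw [Finset.mem_filter]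
      simp
    · intro w
      rw [Finset.mem_filter]
      simp
  have hdeg : ∀ x y, (nb G x).card = (nb G y).card := by
    intro x y
    refine count_inv h G.Adj G.Adj hG hG (hdd x y) _ _ ?_ ?_
    · intro w
      rw [mem_nb, and_self]
    · intro w
      rw [mem_nb, and_self]
  have hnc : ∀ x y i, (nc G R x i).card = (nc G R y i).card := by
    intro x y i
    refine count_inv h G.Adj (fun u v => R u v = i) hG (fun u v u' v' g1 g2 => by
      rw [← g1]; exact g2) (hdd x y) _ _ ?_ ?_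
    · intro w
      rw [mem_nc]
    · intro w
      rw [mem_nc]
  by_cases hV : Nonempty V
  swap
  · rw [not_nonempty_iff] at hV
    exact ⟨0, ⟨fun v => hV.elim v, fun v => hV.elim v, fun v => hV.elim v, fun v => hV.elim v,
      fun v => hV.elim v, fun v => hV.elim v, fun v => hV.elim v⟩⟩
  obtain ⟨v0⟩ := hV
  refine ⟨(nb G v0).card, ?_⟩
  refine ⟨?_, ?_, ?_, ?_, ?_, ?_, ?_⟩
  · intro v
    left
    rw [hdeg v v0]
  · intro x y a b hxy hab
    rw [hnc x a, hdeg v0 a]
    have h1 := hth a b hab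
    have e1 : {z | G.Adj a z} = ((nb G a : Finset V) : Set V) := by
      ext z
      rw [Finset.mem_coe, mem_nb, Set.mem_ofPred_eq]
    have e2 : {z | R a z = R a b} = ((nc G R a (R a b) : Finset V) : Set V) := by
      ext z
      rw [Finset.mem_coe, mem_nc, Set.mem_ofPred_eq]
      exact ⟨fun g => ⟨hG a b a z g.symm hab, g⟩, fun g => g.2⟩
    rw [e1, e2, Set.ncard_coe_finset, Set.ncard_coe_finset] at h1
    exact h1
  · intro a b a' b' _ _ g
    exact h.inv _ _ _ _ g
  · intro a b a' b' _ _ g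
    exact hcd _ _ _ _ g
  · intro a b a' b' _ _ g t i
    refine count_inv h (fun u w => w ≠ u ∧ ¬ G.Adj u w ∧ cd G u w < t)
      (fun u w => G.Adj u w ∧ R u w = i) ?_ ?_ g _ _ ?_ ?_
    · intro x y x' y' e ⟨g1, g2, g3⟩
      refine ⟨?_, fun g4 => g2 (hG _ _ _ _ e.symm g4), ?_⟩
      · rintro rfl
        exact g1 ((h.diag x y y').1 e).symm
      · rw [← hcd _ _ _ _ e]
        exact g3
    · intro x y x' y' e ⟨g1, g2⟩
      exact ⟨hG _ _ _ _ e g1, by rw [← e]; exact g2⟩
    · intro w
      rw [mem_ls]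
      tauto
    · intro w
      rw [mem_ls]
      tauto
  · intro a b a' b' _ _ g s i
    refine count_inv h (fun u w => (cd G u w : ℝ) < s)
      (fun u w => G.Adj u w ∧ R u w = i) ?_ ?_ g _ _ ?_ ?_
    · intro x y x' y' e g3
      rw [← hcd _ _ _ _ e]
      exact g3
    · intro x y x' y' e ⟨g1, g2⟩
      exact ⟨hG _ _ _ _ e g1, by rw [← e]; exact g2⟩
    · intro w
      rw [mem_lf]
      tauto
    · intro w
      rw [mem_lf]
      tauto
  · intro a b a' b' _ _ g s
    refine count_inv h (fun u w => G.Adj u w ∧ (cd G u w : ℝ) < s) G.Adj ?_ hG g _ _ ?_ ?_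
    · intro x y x' y' e ⟨g1, g3⟩
      refine ⟨hG _ _ _ _ e g1, ?_⟩
      rw [← hcd _ _ _ _ e]
      exact g3
    · intro w
      rw [mem_la]
      tauto
    · intro w
      rw [mem_la]
      tauto

/-! ### Edge-transitive graphs -/

/-- Any edge can be mapped to any other edge by an automorphism. -/
def EdgeTr {V : Type} (G : SimpleGraph V) : Prop :=
  ∀ a b c d, G.Adj a b → G.Adj c d → ∃ φ : G ≃g G, (φ a = c ∧ φ b = d) ∨ (φ a = d ∧ φ b = c)

theorem edgeTr_cases {V : Type} [Fintype V] (G : SimpleGraph V) (h : EdgeTr G) :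
    G.Colorable 2 ∨ ∃ D : ℕ, Hom G (1 / 2) D (orb G) := by
  classical
  by_cases hedge : ∃ a b, G.Adj a b
  swap
  · left
    push Not at hedge
    exact ⟨SimpleGraph.Coloring.mk (fun _ => 0) (fun {a b} hab => absurd hab (hedge a b))⟩
  obtain ⟨a0, b0, hab0⟩ := hedge
  by_cases hsw : ∃ φ : G ≃g G, φ a0 = b0
  swap
  · left
    refine ⟨SimpleGraph.Coloring.mk
      (fun v => if (∃ φ : G ≃g G, φ a0 = v) then (0 : Fin 2) else 1) ?_⟩
    intro v w hvw
    have key : ∀ v w, (∃ φ : G ≃g G, φ a0 = v ∧ φ b0 = w) →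
        (∃ φ : G ≃g G, φ a0 = v) ∧ ¬ ∃ φ : G ≃g G, φ a0 = w := by
      rintro v w ⟨φ, h1, h2⟩
      refine ⟨⟨φ, h1⟩, ?_⟩
      rintro ⟨ψ, h3⟩
      apply hsw
      refine ⟨ψ.trans φ.symm, ?_⟩
      show φ.symm (ψ a0) = b0
      rw [h3, ← h2, φ.symm_apply_apply]
    obtain ⟨φ, h1 | h1⟩ := h a0 b0 v w hab0 hvw
    · obtain ⟨h2, h3⟩ := key v w ⟨φ, h1⟩
      rw [if_pos h2, if_neg h3]
      decide
    · obtain ⟨h2, h3⟩ := key w v ⟨φ, h1⟩
      rw [if_pos h2, if_neg h3]
      decide
  right
  obtain ⟨σ, hσ⟩ := hsw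
  -- transitive on the vertices which are not isolated
  have htr0 : ∀ x y, G.Adj x y → ∃ φ : G ≃g G, φ a0 = x := by
    intro x y hxy
    obtain ⟨φ, h1 | h1⟩ := h a0 b0 x y hab0 hxy
    · exact ⟨φ, h1.1⟩
    · refine ⟨σ.trans φ, ?_⟩
      show φ (σ a0) = x
      rw [hσ]
      exact h1.2
  have htr : ∀ x y a b, G.Adj x y → G.Adj a b → ∃ φ : G ≃g G, φ a = x := by
    intro x y a b hxy hab
    obtain ⟨φ, h1⟩ := htr0 x y hxy
    obtain ⟨ψ, h2⟩ := htr0 a b hab
    refine ⟨ψ.symm.trans φ, ?_⟩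
    show φ (ψ.symm a) = x
    rw [← h2, ψ.symm_apply_apply]
    exact h1
  have hnb : ∀ (φ : G ≃g G) (x : V), (nb G x).card = (nb G (φ x)).card := by
    intro φ x
    apply card_map φ
    intro w
    rw [mem_nb, mem_nb, φ.map_adj_iff]
  refine ⟨(nb G a0).card, hom_of_group G (1 / 2) (nb G a0).card ?_ htr ?_⟩
  · intro v
    by_cases hv : (nb G v).card = 0
    · exact Or.inr hv
    · left
      obtain ⟨w, hw⟩ := Finset.card_pos.1 (Nat.pos_of_ne_zero hv)
      obtain ⟨φ, rfl⟩ := htr0 v w ((mem_nb G v w).1 hw)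
      rw [← hnb]
  · -- every class has at least half of the degree
    obtain ⟨i, hi⟩ : ∃ i, i = orb G a0 b0 := ⟨_, rfl⟩
    obtain ⟨j, hj⟩ : ∃ j, j = orb G b0 a0 := ⟨_, rfl⟩
    have hij : ∀ x w, G.Adj x w → (orb G x w = i ∧ orb G w x = j) ∨
        (orb G x w = j ∧ orb G w x = i) := by
      intro x w hxw
      obtain ⟨φ, ⟨rfl, rfl⟩ | ⟨rfl, rfl⟩⟩ := h a0 b0 x w hab0 hxw
      · left
        rw [orb_map, orb_map, hi, hj]
        exact ⟨rfl, rfl⟩
      · right
        rw [orb_map, orb_map, hi, hj]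
        exact ⟨rfl, rfl⟩
    have hrev : ∀ x w, orb G x w = i ↔ orb G w x = j := by
      intro x w
      rw [hi, hj]
      constructor
      · intro h1
        obtain ⟨φ, h2, h3⟩ := orb_eq h1.symm
        rw [← h2, ← h3, orb_map]
      · intro h1
        obtain ⟨φ, h2, h3⟩ := orb_eq h1.symm
        rw [← h2, ← h3, orb_map]
    have hsum : ∑ x : V, (nc G (orb G) x i).card = ∑ x : V, (nc G (orb G) x j).card := by
      have e1 := dbl (univ : Finset V) (univ : Finset V) (fun x w => G.Adj x w ∧ orb G x w = i)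
      have e2 : ∀ x, nc G (orb G) x i =
          (univ : Finset V).filter (fun w => G.Adj x w ∧ orb G x w = i) := by
        intro x
        ext w
        rw [mem_nc, Finset.mem_filter]
        simp
      have e3 : ∀ w, nc G (orb G) w j =
          (univ : Finset V).filter (fun x => G.Adj x w ∧ orb G x w = i) := by
        intro w
        ext x
        rw [mem_nc, Finset.mem_filter, hrev, G.adj_comm]
        simp
      calc ∑ x : V, (nc G (orb G) x i).card
          = ∑ x : V, ((univ : Finset V).filter (fun w => G.Adj x w ∧ orb G x w = i)).card := by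
            simp only [e2]
        _ = ∑ w : V, ((univ : Finset V).filter (fun x => G.Adj x w ∧ orb G x w = i)).card := by
            convert e1
        _ = ∑ w : V, (nc G (orb G) w j).card := by simp only [e3]
    have hconst : ∀ (l : Set (V × V)), ∑ x : V, (nc G (orb G) x l).card =
        ((univ : Finset V).filter (fun x => (nb G x).card ≠ 0)).card *
          (nc G (orb G) a0 l).card := by
      intro l
      have e1 : ∀ x, (nc G (orb G) x l).card =
          if (nb G x).card ≠ 0 then (nc G (orb G) a0 l).card else 0 := by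
        intro x
        split_ifs with hx
        · obtain ⟨w, hw⟩ := Finset.card_pos.1 (Nat.pos_of_ne_zero hx)
          obtain ⟨φ, rfl⟩ := htr0 x w ((mem_nb G x w).1 hw)
          rw [← nc_map]
        · rw [ne_eq, not_not] at hx
          have : nc G (orb G) x l ⊆ nb G x := by
            intro w hw
            rw [mem_nc] at hw
            exact (mem_nb G x w).2 hw.1
          have := Finset.card_le_card this
          omega
      rw [Finset.sum_congr rfl (fun x _ => e1 x), ← Finset.sum_filter, Finset.sum_const,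
        smul_eq_mul]
    have hpos : 0 < ((univ : Finset V).filter (fun x => (nb G x).card ≠ 0)).card := by
      apply Finset.card_pos.2
      refine ⟨a0, Finset.mem_filter.2 ⟨Finset.mem_univ _, ?_⟩⟩
      intro h0
      rw [Finset.card_eq_zero] at h0
      have := (mem_nb G a0 b0).2 hab0
      rw [h0] at this
      simp at this
    have hk : (nc G (orb G) a0 i).card = (nc G (orb G) a0 j).card := by
      rw [hconst, hconst] at hsum
      exact Nat.eq_of_mul_eq_mul_left hpos hsum
    have hall : (nb G a0).card ≤ (nc G (orb G) a0 i).card + (nc G (orb G) a0 j).card := by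
      refine le_trans (Finset.card_le_card ?_) (Finset.card_union_le _ _)
      intro w hw
      rw [mem_nb] at hw
      rw [Finset.mem_union, mem_nc, mem_nc]
      rcases hij a0 w hw with h1 | h1
      · exact Or.inl ⟨hw, h1.1⟩
      · exact Or.inr ⟨hw, h1.1⟩
    intro a b hab
    have h2 : (nb G a0).card ≤ 2 * (nc G (orb G) a (orb G a b)).card := by
      obtain ⟨φ, rfl⟩ := htr0 a b hab
      rw [← nc_map]
      rcases hij _ b hab with h1 | h1
      · rw [h1.1]
        omega
      · rw [h1.1]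
        omega
    have h3 : ((nb G a0).card : ℝ) ≤ 2 * ((nc G (orb G) a (orb G a b)).card : ℝ) := by
      exact_mod_cast h2
    linarith

end Pool.Agent.R50.LO
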