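import Pool.Agent.R50.LO.Hom

set_option autoImplicit false

/-!
# The Gyárfás–Sumner conjecture for graphs whose arcs are divided into large homogeneous classes
-/

namespace Pool.Agent.R50.LO

open Finset Pool.Agent.Y394.AT

/-- There are no light cycles of length two (or one) in the graph of the classes. -/
theorem no_cycle (m k : ℕ) (hk : 1 ≤ k) (T : SimpleGraph (Fin (m + 1))) (hT : T.IsTree)
    (lam : ℝ) (hlam : 0 < lam) (hlam1 : lam ≤ 1) :
    ∃ δ : ℝ, 0 < δ ∧ ∃ d0 : ℝ, ∀ (V ι : Type) [Fintype V] (G : SimpleGraph V) (c d : ℝ)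
      (cl : V → V → ι), Hom G c d cl → d0 ≤ d → 0 < d → G.CliqueFree (k + 1) →
      IsEmpty (T ↪g G) → ∀ a b a' b', G.Adj a b → G.Adj a' b' →
      ¬ (lam * d ≤ ((ls G cl ⌈δ * d⌉₊ a b (cl a' b')).card : ℝ) ∧
        lam * d ≤ ((ls G cl ⌈δ * d⌉₊ a' b' (cl a b)).card : ℝ)) := by
  classical
  obtain ⟨δ, hδ, d0, hemb⟩ := embed_tree (m + 1) k (by omega) hk lam hlam hlam1
  refine ⟨δ, hδ, d0, ?_⟩
  intro V ι _ G c d cl h hd hd0 hfree hemp a b a' b' hab hab' hcon
  obtain ⟨hc1, hc2⟩ := hcon
  have hsys : LightSystem G d δ lam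
      (fun z x => G.Adj z x ∧ (cl z x = cl a b ∨ cl z x = cl a' b'))
      (fun z x => ls G cl ⌈δ * d⌉₊ z x (if cl z x = cl a b then cl a' b' else cl a b)) :=
    { adj := fun z x h => h.1
      deg := fun v => by
        have := h.reg.le hd0.le v
        unfold nb at this
        exact this
      cont := by
        intro z x hzx w hw
        rw [mem_ls] at hw
        refine ⟨⟨hw.1, ?_⟩, hw.2.2.1, hw.2.2.2.1⟩
        have := hw.2.1
        split_ifs at this with h1
        · exact Or.inr this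
        · exact Or.inl this
      large := by
        rintro z x ⟨hzx, hcl⟩
        by_cases h1 : cl z x = cl a b
        · rw [if_pos h1, h.lig z x a b hzx hab h1]
          exact hc1
        · rw [if_neg h1]
          have h2 : cl z x = cl a' b' := hcl.resolve_left h1
          rw [h.lig z x a' b' hzx hab' h2]
          exact hc2
      light := by
        intro z y
        have key : ∀ S : Finset V, (∀ x ∈ S, (G.Adj z x ∧ (cl z x = cl a b ∨ cl z x = cl a' b')) ∧
            y ∈ ls G cl ⌈δ * d⌉₊ z x (if cl z x = cl a b then cl a' b' else cl a b)) →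
            (S.card : ℝ) ≤ δ * d := by
          intro S hS
          rcases S.eq_empty_or_nonempty with rfl | ⟨x, hx⟩
          · simp only [Finset.card_empty, Nat.cast_zero]
            positivity
          · have hy := (hS x hx).2
            rw [mem_ls] at hy
            have h4 := hy.2.2.2.2
            rw [Nat.lt_ceil] at h4
            refine le_trans ?_ h4.le
            have : S.card ≤ cd G z y := by
              unfold cd
              apply Finset.card_le_card
              intro x' hx'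
              obtain ⟨h5, h6⟩ := hS x' hx'
              rw [mem_ls] at h6
              exact Finset.mem_filter.2 ⟨Finset.mem_univ _, h5.1, h6.1.symm⟩
            exact_mod_cast this
        exact key _ (fun x hx => ((@Finset.mem_filter _ _ (_) _ _).1 hx).2) }
  obtain ⟨f, hf1, hf2⟩ := hemb V G d _ _ hd hsys ⟨a, b, hab, Or.inl rfl⟩ hfree m (by omega)
    (Fin (m + 1)) T hT (by simp)
  exact hemp.false { toFun := f, inj' := hf1, map_rel_iff' := fun {a b} => (hf2 a b).symm }

/-- Almost all continuations of every arc are heavy. -/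
theorem heavy_hom (m k : ℕ) (hk : 1 ≤ k) (T : SimpleGraph (Fin (m + 1))) (hT : T.IsTree)
    (c : ℝ) (hc : 0 < c) (hc1 : c ≤ 1) (ε : ℝ) (hε : 0 < ε) :
    ∃ δ : ℝ, 0 < δ ∧ ∃ d0 : ℝ, ∀ (V ι : Type) [Fintype V] (G : SimpleGraph V) (d : ℝ)
      (cl : V → V → ι), Hom G c d cl → d0 ≤ d → 0 < d → G.CliqueFree (k + 1) →
      IsEmpty (T ↪g G) → Heavy G d ε δ := by
  classical
  obtain ⟨E, hE⟩ : ∃ E : ℝ, E = min ε 1 := ⟨_, rfl⟩
  have hE0 : 0 < E := by rw [hE]; exact lt_min hε one_pos
  have hE1 : E ≤ 1 := by rw [hE]; exact min_le_right _ _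
  have hEε : E ≤ ε := by rw [hE]; exact min_le_left _ _
  obtain ⟨lam, hlam⟩ : ∃ lam : ℝ, lam = c ^ 4 * E / 200 := ⟨_, rfl⟩
  have hlam0 : 0 < lam := by rw [hlam]; positivity
  have hc2 : c ^ 2 ≤ 1 := by nlinarith
  have hc4 : c ^ 4 ≤ 1 := pow_le_one₀ hc.le hc1
  have hlam1 : lam ≤ 1 := by
    rw [hlam]
    have : c ^ 4 * E ≤ 1 := mul_le_one₀ hc4 hE0.le hE1
    linarith
  obtain ⟨δA, hδA, d0, hno⟩ := no_cycle m k hk T hT lam hlam0 hlam1
  obtain ⟨δ, hδd⟩ : ∃ δ : ℝ, δ = min (min δA (c * lam)) 1 := ⟨_, rfl⟩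
  have hδ0 : 0 < δ := by rw [hδd]; exact lt_min (lt_min hδA (by positivity)) one_pos
  have hδ1 : δ ≤ 1 := by rw [hδd]; exact min_le_right _ _
  have hδδA : δ ≤ δA := by rw [hδd]; exact (min_le_left _ _).trans (min_le_left _ _)
  have hδc : δ / c ≤ lam := by
    rw [div_le_iff₀ hc, mul_comm lam c, hδd]
    exact (min_le_left _ _).trans (min_le_right _ _)
  obtain ⟨e0, he0⟩ : ∃ e0 : ℝ, e0 = 2 * lam := ⟨_, rfl⟩
  obtain ⟨e1, he1⟩ : ∃ e1 : ℝ, e1 = e0 / c := ⟨_, rfl⟩
  obtain ⟨δ1, hδ1d⟩ : ∃ δ1 : ℝ, δ1 = e1 * c ^ 2 * δ ^ 2 / 2 := ⟨_, rfl⟩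
  obtain ⟨e2, he2⟩ : ∃ e2 : ℝ, e2 = 4 * e1 / c + e1 := ⟨_, rfl⟩
  obtain ⟨δ2, hδ2d⟩ : ∃ δ2 : ℝ, δ2 = e2 * c ^ 2 * δ1 ^ 2 / 2 := ⟨_, rfl⟩
  obtain ⟨e3, he3⟩ : ∃ e3 : ℝ, e3 = 4 * e2 / c + e2 := ⟨_, rfl⟩
  have he00 : 0 < e0 := by rw [he0]; positivity
  have he10 : 0 < e1 := by rw [he1]; positivity
  have he20 : 0 < e2 := by rw [he2]; positivity
  have he30 : 0 < e3 := by rw [he3]; positivity
  have hδ10 : 0 < δ1 := by rw [hδ1d]; positivity
  have hδ20 : 0 < δ2 := by rw [hδ2d]; positivity
  have hone : ∀ x : ℝ, 0 ≤ x → x ≤ x / c := by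
    intro x hx
    rw [le_div_iff₀ hc]
    nlinarith
  have he01 : e0 ≤ e1 := by rw [he1]; exact hone e0 he00.le
  have he2' : e2 ≤ 5 * e1 / c := by
    have := hone e1 he10.le
    rw [he2]
    have h2 : 5 * e1 / c = 4 * e1 / c + e1 / c := by ring
    rw [h2]
    linarith
  have he3' : e3 ≤ 5 * e2 / c := by
    have := hone e2 he20.le
    rw [he3]
    have h2 : 5 * e2 / c = 4 * e2 / c + e2 / c := by ring
    rw [h2]
    linarith
  have he12 : e1 ≤ e2 := by
    rw [he2]
    have : 0 < 4 * e1 / c := by positivity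
    linarith
  have he1v : e1 = c ^ 3 * E / 100 := by
    rw [he1, he0, hlam]
    field_simp
    ring
  have he2v : e2 ≤ c ^ 2 * E / 20 := by
    refine he2'.trans (le_of_eq ?_)
    rw [he1v]
    field_simp
    ring
  have he3v : e3 ≤ c * E / 4 := by
    refine he3'.trans ?_
    have : 5 * e2 / c ≤ 5 * (c ^ 2 * E / 20) / c := by
      apply div_le_div_of_nonneg_right _ hc.le
      linarith
    refine this.trans (le_of_eq ?_)
    field_simp
    ring
  have he2c : e2 ≤ c / 4 := by
    refine he2v.trans ?_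
    have : c ^ 2 * E ≤ c := by
      have h1 : c ^ 2 * E ≤ c ^ 2 * 1 := mul_le_mul_of_nonneg_left hE1 (by positivity)
      nlinarith
    linarith
  have he1c : e1 ≤ c / 4 := he12.trans he2c
  have he1le : e1 ≤ 1 := by linarith
  have he2le : e2 ≤ 1 := by linarith
  have hδ1δ : δ1 ≤ δ := by
    rw [hδ1d]
    have h1 : e1 * c ^ 2 ≤ 1 := mul_le_one₀ he1le (sq_nonneg c) hc2
    have h2 : e1 * c ^ 2 * δ ^ 2 ≤ 1 * δ ^ 2 := mul_le_mul_of_nonneg_right h1 (by positivity)
    have h3 : δ ^ 2 ≤ δ := by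
      rw [sq]
      exact mul_le_of_le_one_left hδ0.le hδ1
    linarith
  have hδ1le : δ1 ≤ 1 := hδ1δ.trans hδ1
  have hδ2δ : δ2 ≤ δ1 := by
    rw [hδ2d]
    have h1 : e2 * c ^ 2 ≤ 1 := mul_le_one₀ he2le (sq_nonneg c) hc2
    have h2 : e2 * c ^ 2 * δ1 ^ 2 ≤ 1 * δ1 ^ 2 := mul_le_mul_of_nonneg_right h1 (by positivity)
    have h3 : δ1 ^ 2 ≤ δ1 := by
      rw [sq]
      exact mul_le_of_le_one_left hδ10.le hδ1le
    linarith
  have hr1 : 2 * δ1 / (c ^ 2 * δ ^ 2) = e1 := by
    rw [hδ1d]
    field_simp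
  have hr2 : 2 * δ2 / (c ^ 2 * δ1 ^ 2) = e2 := by
    rw [hδ2d]
    field_simp
  refine ⟨δ2, hδ20, d0, ?_⟩
  intro V ι _ G d cl h hd hd0 hfree hemp
  -- one of the two directions is heavy
  have hone' : ∀ a b a' b', G.Adj a b → G.Adj a' b' →
      ((lf G cl (δ * d) a b (cl a' b')).card : ℝ) ≤ e0 * d ∨
      ((lf G cl (δ * d) a' b' (cl a b)).card : ℝ) ≤ e0 * d := by
    intro a b a' b' hab hab'
    have h1 := hno V ι G c d cl h hd hd0 hfree hemp a b a' b' hab hab'
    have h2 : ∀ p q i, G.Adj p q →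
        ((ls G cl ⌈δA * d⌉₊ p q i).card : ℝ) < lam * d →
        ((lf G cl (δ * d) p q i).card : ℝ) ≤ e0 * d := by
      intro p q i hpq hlt
      have h3 := lf_le_ls h hd0 hc hδ0.le hδ1 hpq i
      have h4 : ((ls G cl ⌈δ * d⌉₊ p q i).card : ℝ) ≤ ((ls G cl ⌈δA * d⌉₊ p q i).card : ℝ) := by
        have : ls G cl ⌈δ * d⌉₊ p q i ⊆ ls G cl ⌈δA * d⌉₊ p q i := by
          intro w hw
          rw [mem_ls] at hw ⊢
          refine ⟨hw.1, hw.2.1, hw.2.2.1, hw.2.2.2.1, lt_of_lt_of_le hw.2.2.2.2 ?_⟩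
          exact Nat.ceil_mono (mul_le_mul_of_nonneg_right hδδA hd0.le)
        exact_mod_cast Finset.card_le_card this
      have h5 : δ / c * d ≤ lam * d := mul_le_mul_of_nonneg_right hδc hd0.le
      rw [he0]
      linarith
    rw [not_and_or, not_le, not_le] at h1
    rcases h1 with h1 | h1
    · exact Or.inl (h2 a b _ hab h1)
    · exact Or.inr (h2 a' b' _ hab' h1)
  have hself : ∀ a b, G.Adj a b → ∀ z x, G.Adj z x → cl z x = cl a b →
      ((lf G cl (δ * d) z x (cl a b)).card : ℝ) ≤ e0 * d := by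
    intro a b hab z x hzx hcl
    have h1 := hone' a b a b hab hab
    rw [h.all z x a b hzx hab hcl]
    rcases h1 with h1 | h1
    · exact h1
    · exact h1
  -- both directions are heavy for a smaller threshold
  have hboth : ∀ a b a' b', G.Adj a b → G.Adj a' b' →
      ((lf G cl (δ2 * d) a b (cl a' b')).card : ℝ) ≤ e3 * d := by
    intro a b a' b' hab hab'
    have hsm : δ2 * d ≤ δ * d :=
      mul_le_mul_of_nonneg_right (hδ2δ.trans hδ1δ) hd0.le
    have hsm1 : δ1 * d ≤ δ * d := mul_le_mul_of_nonneg_right hδ1δ hd0.le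
    rcases hone' a b a' b' hab hab' with h1 | h1
    · have h2 : ((lf G cl (δ2 * d) a b (cl a' b')).card : ℝ) ≤
          ((lf G cl (δ * d) a b (cl a' b')).card : ℝ) := by
        exact Nat.cast_le.2 (lf_mono (G := G) (cl := cl) hsm a b _)
      have h3 : e0 * d ≤ e3 * d := by
        apply mul_le_mul_of_nonneg_right _ hd0.le
        have : e2 ≤ e3 := by
          rw [he3]
          have : 0 < 4 * e2 / c := by positivity
          linarith
        linarith
      linarith
    · have hji : ∀ p q, G.Adj p q → cl p q = cl a' b' →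
          ((lf G cl (δ * d) p q (cl a b)).card : ℝ) ≤ e0 * d := by
        intro p q hpq hcl
        rw [h.all p q a' b' hpq hab' hcl]
        exact h1
      have s1 := rev h hd0 hc he00.le hab hab' hji
      rw [← he1] at s1
      have s2 := tri h hd0 hc (ε := e1) (δ := δ) (δ' := δ1) (a := b) (b := a) (p := b') (q := a')
        (β := cl a' b') he1c hδ0 hδ10.le hab.symm hab'.symm s1
        (fun u x hux hcl => (hself a' b' hab' u x hux hcl).trans
          (mul_le_mul_of_nonneg_right he01 hd0.le))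
      rw [hr1, ← he2] at s2
      have s3 := tri h hd0 hc (ε := e2) (δ := δ1) (δ' := δ2) (a := a) (b := b) (p := a) (q := b)
        (β := cl a' b') he2c hδ10 hδ20.le hab hab
        (by
          intro z x hzx hcl
          have g1 := hself a b hab z x hzx hcl
          have g2 : ((lf G cl (δ1 * d) z x (cl a b)).card : ℝ) ≤
              ((lf G cl (δ * d) z x (cl a b)).card : ℝ) := by
            exact Nat.cast_le.2 (lf_mono (G := G) (cl := cl) hsm1 z x _)
          have g3 : e0 * d ≤ e2 * d := mul_le_mul_of_nonneg_right (he01.trans he12) hd0.le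
          linarith)
        s2
      rw [hr2, ← he3] at s3
      exact s3 a b hab rfl
  -- sum over the classes
  intro z x hzx
  obtain ⟨J, hJ⟩ : ∃ J : Finset ι, J = (nb G x).image (cl x) := ⟨_, rfl⟩
  have hJc : (J.card : ℝ) * (c * d) ≤ d := by
    have h1 : ∑ j ∈ J, (nc G cl x j).card = (nb G x).card := by
      rw [Finset.card_eq_sum_card_fiberwise (f := cl x) (t := J) (s := nb G x)]
      · apply Finset.sum_congr rfl
        intro j _
        congr 1
      · intro w hw
        rw [hJ]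
        exact Finset.mem_image_of_mem _ hw
    calc (J.card : ℝ) * (c * d) = ∑ j ∈ J, c * d := by rw [Finset.sum_const, nsmul_eq_mul]
      _ ≤ ∑ j ∈ J, ((nc G cl x j).card : ℝ) := by
          apply Finset.sum_le_sum
          intro j hj
          rw [hJ, Finset.mem_image] at hj
          obtain ⟨w, hw, rfl⟩ := hj
          exact h.thick x z x w hzx.symm ((mem_nb G x w).1 hw)
      _ = ((nb G x).card : ℝ) := by exact_mod_cast h1
      _ ≤ d := h.reg.le hd0.le x
  have hS : (((nb G x).filter (fun w => (cd G z w : ℝ) < δ2 * d)).card : ℝ) =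
      ∑ j ∈ J, ((lf G cl (δ2 * d) z x j).card : ℝ) := by
    have h1 : ((nb G x).filter (fun w => (cd G z w : ℝ) < δ2 * d)).card =
        ∑ j ∈ J, (lf G cl (δ2 * d) z x j).card := by
      rw [Finset.card_eq_sum_card_fiberwise (f := cl x) (t := J)
        (s := (nb G x).filter (fun w => (cd G z w : ℝ) < δ2 * d))]
      · apply Finset.sum_congr rfl
        intro j _
        congr 1
        ext w
        rw [mem_lf, Finset.mem_filter, Finset.mem_filter, mem_nb]
        tauto
      · intro w hw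
        rw [hJ]
        exact Finset.mem_image_of_mem _ (Finset.mem_filter.1 hw).1
    exact_mod_cast h1
  rw [hS]
  have hd' : ∑ j ∈ J, ((lf G cl (δ2 * d) z x j).card : ℝ) ≤ (J.card : ℝ) * (e3 * d) := by
    rw [← nsmul_eq_mul, ← Finset.sum_const]
    apply Finset.sum_le_sum
    intro j hj
    rw [hJ, Finset.mem_image] at hj
    obtain ⟨w, hw, rfl⟩ := hj
    exact hboth z x x w hzx ((mem_nb G x w).1 hw)
  have hJ1 : (J.card : ℝ) * c ≤ 1 := by
    have : (J.card : ℝ) * c * d ≤ 1 * d := by linarith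
    exact le_of_mul_le_mul_right this hd0
  calc ∑ j ∈ J, ((lf G cl (δ2 * d) z x j).card : ℝ) ≤ (J.card : ℝ) * (e3 * d) := hd'
    _ ≤ (J.card : ℝ) * (c * E / 4 * d) := by
        apply mul_le_mul_of_nonneg_left _ (Nat.cast_nonneg _)
        exact mul_le_mul_of_nonneg_right he3v hd0.le
    _ = ((J.card : ℝ) * c) * (E / 4 * d) := by ring
    _ ≤ 1 * (E / 4 * d) := mul_le_mul_of_nonneg_right hJ1 (by positivity)
    _ ≤ ε * d := by nlinarith

open Classical in
/-- **Main theorem for graphs with large homogeneous classes of arcs.** -/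
theorem exists_color (m : ℕ) (F : SimpleGraph (Fin m)) (hF : F.IsAcyclic) (c : ℝ) (hc : 0 < c)
    (hc1 : c ≤ 1) (k : ℕ) (hk : 1 ≤ k) :
    ∃ C : ℕ, ∀ (V ι : Type) [Fintype V] (G : SimpleGraph V) (D : ℕ) (cl : V → V → ι),
      Hom G c D cl → G.CliqueFree (k + 1) → IsEmpty (F ↪g G) → G.Colorable C := by
  obtain ⟨N0, hN0⟩ := Pool.Agent.W259.GS.noShatter F hF.colorable_two (k + 1)
  obtain ⟨T, hT, ⟨ι0⟩⟩ := Pool.Agent.H367R3.forest_in_tree F hF
  have hkR : (1 : ℝ) ≤ k := by exact_mod_cast hk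
  have hk0 : (0 : ℝ) < k := by linarith
  have hE : ∀ ε : ℝ, ∃ δ : ℝ, 0 < δ ∧ ∃ d0 : ℝ, 0 < ε → ∀ (V ι : Type) [Fintype V]
      (G : SimpleGraph V) (d : ℝ) (cl : V → V → ι), Hom G c d cl → d0 ≤ d → 0 < d →
      G.CliqueFree (k + 1) → IsEmpty (T ↪g G) → Heavy G d ε δ := by
    intro ε
    by_cases hε : 0 < ε
    · obtain ⟨δ, hδ, d0, h0⟩ := heavy_hom m k hk T hT c hc hc1 ε hε
      exact ⟨δ, hδ, d0, fun _ => h0⟩
    · exact ⟨1, one_pos, 0, fun h => absurd h hε⟩
  choose δf hδf D0 hD0 using hE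
  obtain ⟨C, d1, hC⟩ := colour N0 δf D0 (fun ε _ => hδf ε) (c / k) (by positivity)
    (by rw [div_le_one hk0]; linarith)
  refine ⟨max C (⌈max d1 1⌉₊ + 1), ?_⟩
  intro V ι _ G D cl h hfree hemp
  have hempT : IsEmpty (T ↪g G) := ⟨fun g => hemp.false (ι0.trans g)⟩
  have hreg : Reg G (D : ℝ) := h.reg
  by_cases hbig : max d1 1 ≤ (D : ℝ)
  · have hd1 : d1 ≤ (D : ℝ) := (le_max_left _ _).trans hbig
    have hD1R : (1 : ℝ) ≤ (D : ℝ) := (le_max_right _ _).trans hbig
    have hD0' : (0 : ℝ) < D := by linarith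
    have hcol := hC V G D hd1 hD1R hreg
      (fun ε hε hDD => hD0 ε hε V ι G D cl h hDD hD0' hfree hempT)
      (fun X hX => hN0 V G X hfree hemp hX) (by
        intro v v' hvv'
        by_contra hcon
        push Not at hcon
        have hth := h.thick v v' v v' hvv' hvv'
        have hL : ∀ w ∈ nc G cl v (cl v v'), G.Adj v w :=
          fun w hw => ((mem_nc G cl v w _).1 hw).1
        have hvc : ((nb G v).card : ℝ) = D := hreg.eq hvv'
        have h1 := few_dense G k hfree v (nc G cl v (cl v v')) hL (nc G cl v (cl v v'))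
          (Finset.Subset.refl _) (by
          intro w hw
          rw [mem_nc] at hw
          have h2 : cd G v w = cd G v v' := h.cod v w v v' hw.1 hvv' hw.2
          have h3 : ((nc G cl v (cl v v')).filter (fun y => ¬ G.Adj w y)).card + cd G v w ≤
              (nb G v).card := by
            unfold cd
            rw [← Finset.card_union_of_disjoint]
            · apply Finset.card_le_card
              intro y hy
              rw [Finset.mem_union, Finset.mem_filter, Finset.mem_filter] at hy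
              rcases hy with hy | hy
              · exact (mem_nb G v y).2 (hL y hy.1)
              · exact (mem_nb G v y).2 hy.2.1
            · rw [Finset.disjoint_left]
              intro y hy hy'
              exact (Finset.mem_filter.1 hy).2 (Finset.mem_filter.1 hy').2.2
          have h3' : ((((nc G cl v (cl v v')).filter (fun y => ¬ G.Adj w y)).card : ℝ)) +
              cd G v w ≤ (nb G v).card := by exact_mod_cast h3
          rw [h2, hvc] at h3'
          have h4 : ((((nc G cl v (cl v v')).filter (fun y => ¬ G.Adj w y)).card : ℝ)) ≤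
              c / k * D := by
            linarith
          calc (k : ℝ) * ((((nc G cl v (cl v v')).filter (fun y => ¬ G.Adj w y)).card : ℝ)) ≤
                k * (c / k * D) := mul_le_mul_of_nonneg_left h4 hk0.le
            _ = c * D := by field_simp
            _ ≤ _ := hth)
        have h5 : 0 < ((nc G cl v (cl v v')).card : ℝ) :=
          lt_of_lt_of_le (mul_pos hc hD0') hth
        nlinarith)
    exact hcol.mono (le_max_left _ _)
  · push Not at hbig
    have hDle : D ≤ ⌈max d1 1⌉₊ := by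
      have : (D : ℝ) ≤ ⌈max d1 1⌉₊ := hbig.le.trans (Nat.le_ceil _)
      exact_mod_cast this
    have : G.Colorable (⌈max d1 1⌉₊ + 1) := colorable_of_deg G _ (by
      intro v
      rcases hreg v with h | h
      · have : (nb G v).card = D := by exact_mod_cast h
        rw [this]
        exact hDle
      · omega)
    exact this.mono (le_max_right _ _)

end Pool.Agent.R50.LO
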