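import Pool.Agent.Y394.AT.Main

set_option autoImplicit false

/-!
# A triangle inequality for heavy walks
-/

namespace Pool.Agent.R50.LO

open Finset Pool.Agent.Y394.AT

open Classical in
/-- double counting of pairs -/
theorem dbl {V : Type} (P Q : Finset V) (r : V → V → Prop) :
    ∑ x ∈ P, (Q.filter (fun w => r x w)).card = ∑ w ∈ Q, (P.filter (fun x => r x w)).card := by
  have h := Finset.sum_card_bipartiteAbove_eq_sum_card_bipartiteBelow (s := P) (t := Q) r
  unfold Finset.bipartiteAbove Finset.bipartiteBelow at h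
  exact h

open Classical in
theorem dblR {V : Type} (P Q : Finset V) (r : V → V → Prop) :
    ∑ x ∈ P, ((Q.filter (fun w => r x w)).card : ℝ) =
      ∑ w ∈ Q, ((P.filter (fun x => r x w)).card : ℝ) := by
  exact_mod_cast dbl P Q r

open Classical in
/-- **Triangle inequality for heavy walks.** -/
theorem ruzsa {V : Type} [Fintype V] {G : SimpleGraph V} {d : ℝ} (hreg : Reg G d) (hd : 0 < d)
    {c ε δ δ' : ℝ} (hc : 0 < c) (hεc : ε ≤ c / 4) (hδ : 0 < δ)
    (hδ' : 0 ≤ δ') (z : V) (X : Finset V) (hX : ∀ x ∈ X, G.Adj z x)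
    (U W : V → Finset V) (hU : ∀ x ∈ X, ∀ u ∈ U x, G.Adj x u)
    (hW : ∀ x ∈ X, ∀ w ∈ W x, G.Adj x w)
    (hUc : ∀ x ∈ X, c * d ≤ ((U x).card : ℝ))
    (h1 : ∀ x ∈ X, (((U x).filter (fun u => (cd G z u : ℝ) < δ * d)).card : ℝ) ≤ ε * d)
    (h2 : ∀ x ∈ X, ∀ u ∈ U x,
      (((W x).filter (fun w => (cd G u w : ℝ) < δ * d)).card : ℝ) ≤ ε * d) :
    ∑ x ∈ X, (((W x).filter (fun w => (cd G z w : ℝ) < δ' * d)).card : ℝ) ≤
      (X.card : ℝ) * (4 * ε / c * d) + 2 * δ' / (c * δ ^ 2) * d ^ 2 := by
  have hcd : 0 < c * d := mul_pos hc hd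
  obtain ⟨B, hB⟩ : ∃ B : V → Finset V, ∀ x, B x = (W x).filter
      (fun w => c * d / 4 ≤ (((U x).filter (fun u => (cd G u w : ℝ) < δ * d)).card : ℝ)) :=
    ⟨_, fun _ => rfl⟩
  have hUd : ∀ x ∈ X, ((U x).card : ℝ) ≤ d := by
    intro x hx
    refine le_trans ?_ (hreg.le hd.le x)
    exact_mod_cast Finset.card_le_card (fun u hu => (mem_nb G x u).2 (hU x hx u hu))
  -- few bad `w`
  have hBc : ∀ x ∈ X, ((B x).card : ℝ) ≤ 4 * ε / c * d := by
    intro x hx
    have e1 : ∑ w ∈ W x, (((U x).filter (fun u => (cd G u w : ℝ) < δ * d)).card : ℝ) ≤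
        ε * d * d := by
      rw [← dblR (U x) (W x) (fun u w => (cd G u w : ℝ) < δ * d)]
      calc ∑ u ∈ U x, (((W x).filter (fun w => (cd G u w : ℝ) < δ * d)).card : ℝ)
          ≤ ∑ u ∈ U x, ε * d := Finset.sum_le_sum fun u hu => h2 x hx u hu
        _ = ((U x).card : ℝ) * (ε * d) := by rw [Finset.sum_const, nsmul_eq_mul]
        _ ≤ d * (ε * d) := by
            apply mul_le_mul_of_nonneg_right (hUd x hx)
            have := h1 x hx
            refine le_trans ?_ this
            positivity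
        _ = ε * d * d := by ring
    have e2 : (c * d / 4) * ((B x).card : ℝ) ≤ ε * d * d := by
      refine le_trans ?_ e1
      calc (c * d / 4) * ((B x).card : ℝ) = ∑ w ∈ B x, c * d / 4 := by
            rw [Finset.sum_const, nsmul_eq_mul, mul_comm]
        _ ≤ ∑ w ∈ B x, (((U x).filter (fun u => (cd G u w : ℝ) < δ * d)).card : ℝ) := by
            apply Finset.sum_le_sum
            intro w hw
            rw [hB] at hw
            exact (Finset.mem_filter.1 hw).2
        _ ≤ ∑ w ∈ W x, (((U x).filter (fun u => (cd G u w : ℝ) < δ * d)).card : ℝ) := by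
            apply Finset.sum_le_sum_of_subset_of_nonneg
            · rw [hB]
              exact Finset.filter_subset _ _
            · intro w _ _
              exact Nat.cast_nonneg _
    have e3 : ((B x).card : ℝ) * (c * d / 4) ≤ (4 * ε / c * d) * (c * d / 4) := by
      have : (4 * ε / c * d) * (c * d / 4) = ε * d * d := by
        field_simp
      rw [this]
      linarith
    exact le_of_mul_le_mul_right e3 (by positivity)
  -- the other `w`
  obtain ⟨T, hT⟩ : ∃ T : V → Finset V, ∀ x, T x = (W x).filter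
      (fun w => w ∉ B x ∧ (cd G z w : ℝ) < δ' * d) := ⟨_, fun _ => rfl⟩
  obtain ⟨W', hW'⟩ : ∃ W' : Finset V, W' = X.biUnion T := ⟨_, rfl⟩
  have hW'c : (W'.card : ℝ) ≤ 2 / (c * δ ^ 2) * d := by
    have e1 : ∀ w ∈ W', c * d / 2 ≤ ((((univ : Finset V).filter
        (fun u => δ * d ≤ (cd G z u : ℝ))).filter (fun u => δ * d ≤ (cd G u w : ℝ))).card : ℝ) := by
      intro w hw
      rw [hW', Finset.mem_biUnion] at hw
      obtain ⟨x, hx, hw⟩ := hw
      rw [hT, Finset.mem_filter] at hw
      obtain ⟨hwW, hwB, _⟩ := hw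
      have f1 : (((U x).filter (fun u => (cd G u w : ℝ) < δ * d)).card : ℝ) < c * d / 4 := by
        by_contra hcon
        push Not at hcon
        apply hwB
        rw [hB]
        exact Finset.mem_filter.2 ⟨hwW, hcon⟩
      have f2 := h1 x hx
      have f3 := hUc x hx
      have f4 : U x ⊆ (((univ : Finset V).filter
          (fun u => δ * d ≤ (cd G z u : ℝ))).filter (fun u => δ * d ≤ (cd G u w : ℝ))) ∪
          ((U x).filter (fun u => (cd G z u : ℝ) < δ * d) ∪
            (U x).filter (fun u => (cd G u w : ℝ) < δ * d)) := by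
        intro u hu
        simp only [Finset.mem_union, Finset.mem_filter, Finset.mem_univ, true_and]
        by_cases g1 : (cd G z u : ℝ) < δ * d
        · exact Or.inr (Or.inl ⟨hu, g1⟩)
        · by_cases g2 : (cd G u w : ℝ) < δ * d
          · exact Or.inr (Or.inr ⟨hu, g2⟩)
          · exact Or.inl ⟨not_lt.1 g1, not_lt.1 g2⟩
      have f5 : ((U x).card : ℝ) ≤ ((((univ : Finset V).filter
          (fun u => δ * d ≤ (cd G z u : ℝ))).filter (fun u => δ * d ≤ (cd G u w : ℝ))).card : ℝ) +
          ((((U x).filter (fun u => (cd G z u : ℝ) < δ * d)).card : ℝ) +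
            (((U x).filter (fun u => (cd G u w : ℝ) < δ * d)).card : ℝ)) := by
        have g1 := Finset.card_le_card f4
        have g2 := g1.trans ((Finset.card_union_le _ _).trans
          (Nat.add_le_add_left (Finset.card_union_le _ _) _))
        exact_mod_cast g2
      have f6 : ε * d ≤ c / 4 * d := mul_le_mul_of_nonneg_right hεc hd.le
      linarith
    have e2 : (c * d / 2) * (W'.card : ℝ) ≤ (d / δ) * (d / δ) := by
      calc (c * d / 2) * (W'.card : ℝ) = ∑ w ∈ W', c * d / 2 := by
            rw [Finset.sum_const, nsmul_eq_mul, mul_comm]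
        _ ≤ ∑ w ∈ W', ((((univ : Finset V).filter
            (fun u => δ * d ≤ (cd G z u : ℝ))).filter (fun u => δ * d ≤ (cd G u w : ℝ))).card : ℝ) :=
            Finset.sum_le_sum e1
        _ ≤ ∑ w : V, ((((univ : Finset V).filter
            (fun u => δ * d ≤ (cd G z u : ℝ))).filter (fun u => δ * d ≤ (cd G u w : ℝ))).card : ℝ) :=
            Finset.sum_le_sum_of_subset_of_nonneg (Finset.subset_univ _)
              (fun w _ _ => Nat.cast_nonneg _)
        _ = ∑ u ∈ (univ : Finset V).filter (fun u => δ * d ≤ (cd G z u : ℝ)),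
              ((((univ : Finset V)).filter (fun w => δ * d ≤ (cd G u w : ℝ))).card : ℝ) := by
            rw [dblR]
        _ ≤ ∑ u ∈ (univ : Finset V).filter (fun u => δ * d ≤ (cd G z u : ℝ)), d / δ :=
            Finset.sum_le_sum fun u _ => heavy_card hreg hd δ hδ u
        _ = (((univ : Finset V).filter (fun u => δ * d ≤ (cd G z u : ℝ))).card : ℝ) *
              (d / δ) := by rw [Finset.sum_const, nsmul_eq_mul]
        _ ≤ (d / δ) * (d / δ) :=
            mul_le_mul_of_nonneg_right (heavy_card hreg hd δ hδ z) (by positivity)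
    have e3 : (W'.card : ℝ) * (c * d / 2) ≤ (2 / (c * δ ^ 2) * d) * (c * d / 2) := by
      have : (2 / (c * δ ^ 2) * d) * (c * d / 2) = (d / δ) * (d / δ) := by
        field_simp
      rw [this]
      linarith
    exact le_of_mul_le_mul_right e3 (by positivity)
  have hTsum : ∑ x ∈ X, ((T x).card : ℝ) ≤ 2 * δ' / (c * δ ^ 2) * d ^ 2 := by
    have e1 : ∀ x ∈ X, (T x).card = (W'.filter (fun w => w ∈ T x)).card := by
      intro x hx
      congr 1
      ext w
      rw [Finset.mem_filter, hW', Finset.mem_biUnion]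
      exact ⟨fun h => ⟨⟨x, hx, h⟩, h⟩, fun h => h.2⟩
    have e2 : ∑ x ∈ X, ((T x).card : ℝ) = ∑ w ∈ W', ((X.filter (fun x => w ∈ T x)).card : ℝ) := by
      have e3 := dblR X W' (fun x w => w ∈ T x)
      calc ∑ x ∈ X, ((T x).card : ℝ) = ∑ x ∈ X, ((W'.filter (fun w => w ∈ T x)).card : ℝ) := by
            apply Finset.sum_congr rfl
            intro x hx
            rw [e1 x hx]
        _ = ∑ w ∈ W', ((X.filter (fun x => w ∈ T x)).card : ℝ) := by convert e3
    rw [e2]
    calc ∑ w ∈ W', ((X.filter (fun x => w ∈ T x)).card : ℝ) ≤ ∑ w ∈ W', δ' * d := by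
          apply Finset.sum_le_sum
          intro w hw
          rw [hW', Finset.mem_biUnion] at hw
          obtain ⟨x0, hx0, hw⟩ := hw
          rw [hT, Finset.mem_filter] at hw
          refine le_trans ?_ hw.2.2.le
          have : (X.filter (fun x => w ∈ T x)).card ≤ cd G z w := by
            unfold cd
            apply Finset.card_le_card
            intro x hx
            obtain ⟨hxX, hxT⟩ := Finset.mem_filter.1 hx
            rw [hT, Finset.mem_filter] at hxT
            exact Finset.mem_filter.2 ⟨Finset.mem_univ _, hX x hxX, (hW x hxX w hxT.1).symm⟩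
          exact_mod_cast this
      _ = (W'.card : ℝ) * (δ' * d) := by rw [Finset.sum_const, nsmul_eq_mul]
      _ ≤ (2 / (c * δ ^ 2) * d) * (δ' * d) :=
          mul_le_mul_of_nonneg_right hW'c (by positivity)
      _ = 2 * δ' / (c * δ ^ 2) * d ^ 2 := by ring
  calc ∑ x ∈ X, (((W x).filter (fun w => (cd G z w : ℝ) < δ' * d)).card : ℝ)
      ≤ ∑ x ∈ X, (((B x).card : ℝ) + ((T x).card : ℝ)) := by
        apply Finset.sum_le_sum
        intro x hx
        have : (W x).filter (fun w => (cd G z w : ℝ) < δ' * d) ⊆ B x ∪ T x := by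
          intro w hw
          obtain ⟨hw1, hw2⟩ := Finset.mem_filter.1 hw
          rw [Finset.mem_union]
          by_cases hwB : w ∈ B x
          · exact Or.inl hwB
          · right
            rw [hT]
            exact Finset.mem_filter.2 ⟨hw1, hwB, hw2⟩
        exact_mod_cast (Finset.card_le_card this).trans (Finset.card_union_le _ _)
    _ = ∑ x ∈ X, ((B x).card : ℝ) + ∑ x ∈ X, ((T x).card : ℝ) := Finset.sum_add_distrib
    _ ≤ ∑ x ∈ X, (4 * ε / c * d) + 2 * δ' / (c * δ ^ 2) * d ^ 2 :=
        add_le_add (Finset.sum_le_sum hBc) hTsum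
    _ = (X.card : ℝ) * (4 * ε / c * d) + 2 * δ' / (c * δ ^ 2) * d ^ 2 := by
        rw [Finset.sum_const, nsmul_eq_mul]

end Pool.Agent.R50.LO
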